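import Pool.Agent.H705R3.Zono

/-! The Euclidean ball is a limit of zonotopes. -/

namespace Pool.Agent.H705R3
open MeasureTheory Set Pointwise Metric

variable {V : Type*} [NormedAddCommGroup V] [InnerProductSpace ℝ V] [MeasurableSpace V]
  [BorelSpace V] [FiniteDimensional ℝ V]

noncomputable def cI (u : V) : ℝ := ∫ x in closedBall (0 : V) 1, |inner ℝ x u|

lemma cI_integrable (u : V) : IntegrableOn (fun x : V => |inner ℝ x u|) (closedBall (0 : V) 1) := by
  have hcont : Continuous (fun x : V => |inner ℝ x u|) := by fun_prop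
  exact hcont.continuousOn.integrableOn_compact (isCompact_closedBall _ _)

lemma cI_refl (u u' : V) (h : ‖u‖ = ‖u'‖) : cI u = cI u' := by
  set T := (ℝ ∙ (u - u'))ᗮ.reflection with hT
  have hTu : T u = u' := Submodule.reflection_sub h
  have mp : MeasurePreserving T (volume : Measure V) volume := T.measurePreserving
  have hpre : T ⁻¹' (closedBall (0 : V) 1) = closedBall (0 : V) 1 := by
    ext x; simp
  have h1 : cI u' = ∫ x in T ⁻¹' (closedBall (0 : V) 1), |inner ℝ (T x) u'| :=
    (mp.setIntegral_preimage_emb T.toHomeomorph.measurableEmbedding _ _).symm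
  rw [h1, hpre, cI]
  congr 1
  ext x
  rw [← hTu, T.inner_map_map]

lemma cI_smul (u : V) {c : ℝ} (hc : 0 ≤ c) : cI (c • u) = c * cI u := by
  unfold cI
  rw [← integral_const_mul]
  congr 1
  ext x
  rw [inner_smul_right, abs_mul, abs_of_nonneg hc]

lemma cI_eq {u₀ : V} (h₀ : ‖u₀‖ = 1) (u : V) : cI u = cI u₀ * ‖u‖ := by
  rw [cI_refl u (‖u‖ • u₀) (by rw [norm_smul, norm_norm, h₀, mul_one]), cI_smul _ (norm_nonneg _),
    mul_comm]

lemma cI_pos {u₀ : V} (h₀ : ‖u₀‖ = 1) : 0 < cI u₀ := by
  have hsub : closedBall ((1 / 2 : ℝ) • u₀) (1 / 4) ⊆ closedBall (0 : V) 1 := by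
    intro x hx
    rw [mem_closedBall, dist_eq_norm] at hx ⊢
    have : x - 0 = (x - (1 / 2 : ℝ) • u₀) + (1 / 2 : ℝ) • u₀ := by abel
    rw [this]
    refine (norm_add_le _ _).trans ?_
    rw [norm_smul, h₀]
    norm_num
    norm_num at hx
    linarith
  have hlow : ∀ x ∈ closedBall ((1 / 2 : ℝ) • u₀) (1 / 4), (1 / 4 : ℝ) ≤ |inner ℝ x u₀| := by
    intro x hx
    rw [mem_closedBall, dist_eq_norm] at hx
    have e : inner ℝ x u₀ = inner ℝ (x - (1 / 2 : ℝ) • u₀) u₀ + 1 / 2 := by
      rw [inner_sub_left, inner_smul_left, real_inner_self_eq_norm_sq, h₀]; simp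
    have h2 := abs_real_inner_le_norm (x - (1 / 2 : ℝ) • u₀) u₀
    rw [h₀, mul_one] at h2
    have h3 := (abs_le.mp (h2.trans hx)).1
    have : (1 / 4 : ℝ) ≤ inner ℝ x u₀ := by rw [e]; linarith
    exact this.trans (le_abs_self _)
  have hv : 0 < volume.real (closedBall ((1 / 2 : ℝ) • u₀) (1 / 4)) := by
    rw [Measure.real, ENNReal.toReal_pos_iff]
    exact ⟨measure_closedBall_pos _ _ (by norm_num), (isCompact_closedBall _ _).measure_lt_top⟩
  have h1 : ∫ x in closedBall ((1 / 2 : ℝ) • u₀) (1 / 4), (1 / 4 : ℝ) ≤ cI u₀ := by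
    calc _ ≤ ∫ x in closedBall ((1 / 2 : ℝ) • u₀) (1 / 4), |inner ℝ x u₀| := by
          apply setIntegral_mono_on
          · exact integrableOn_const (isCompact_closedBall _ _).measure_lt_top.ne
          · exact (cI_integrable u₀).mono_set hsub
          · exact isClosed_closedBall.measurableSet
          · exact hlow
      _ ≤ _ := by
          apply setIntegral_mono_set (cI_integrable u₀)
          · exact Filter.Eventually.of_forall fun x => abs_nonneg _
          · exact LE.le.eventuallyLE hsub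
  rw [setIntegral_const, smul_eq_mul] at h1
  have : 0 < volume.real (closedBall ((1 / 2 : ℝ) • u₀) (1 / 4)) * (1 / 4) := by positivity
  linarith

lemma exists_N (ε : ℝ) (hε : 0 < ε) : ∃ N : ℕ, ∀ x ∈ closedBall (0 : V) 1,
    dist (SimpleFunc.nearestPt (TopologicalSpace.denseSeq V) N x) x ≤ ε := by
  obtain ⟨t, ht⟩ := (isCompact_closedBall (0 : V) 1).elim_finite_subcover
    (fun k : ℕ => ball (TopologicalSpace.denseSeq V k) ε) (fun _ => isOpen_ball) (by
      intro x _
      obtain ⟨k, hk⟩ := (TopologicalSpace.denseRange_denseSeq V).exists_dist_lt x hε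
      rw [mem_iUnion]
      exact ⟨k, by rw [mem_ball]; exact hk⟩)
  refine ⟨t.sup id, fun x hx => ?_⟩
  have := ht hx
  simp only [mem_iUnion, mem_ball] at this
  obtain ⟨k, hk, hd⟩ := this
  have h1 := SimpleFunc.edist_nearestPt_le (TopologicalSpace.denseSeq V) x
    (show k ≤ t.sup id from Finset.le_sup (f := id) hk)
  rw [edist_dist, edist_dist] at h1
  have h2 := (ENNReal.ofReal_le_ofReal_iff dist_nonneg).mp h1
  rw [dist_comm x] at hd
  exact h2.trans hd.le

/-- approximate the norm by zonotope support functions -/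
lemma approx_norm {u₀ : V} (h₀ : ‖u₀‖ = 1) {ε : ℝ} (hε : 0 < ε) :
    ∃ (t : Finset V) (w : V → V), ∀ u : V, (1 - ε) * ‖u‖ ≤ ∑ y ∈ t, |inner ℝ (w y) u| ∧
      ∑ y ∈ t, |inner ℝ (w y) u| ≤ (1 + ε) * ‖u‖ := by
  set μ : Measure V := volume.restrict (closedBall (0 : V) 1) with hμ
  have : IsFiniteMeasure μ := ⟨by
    rw [hμ, Measure.restrict_apply_univ]; exact (isCompact_closedBall _ _).measure_lt_top⟩
  have hc := cI_pos h₀
  set Vo := volume.real (closedBall (0 : V) 1) with hVo
  have hVo0 : 0 ≤ Vo := measureReal_nonneg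
  obtain ⟨N, hN⟩ := exists_N (V := V) (ε * cI u₀ / (Vo + 1)) (by positivity)
  set f := SimpleFunc.nearestPt (TopologicalSpace.denseSeq V) N with hf
  refine ⟨f.range, fun y => (μ.real (f ⁻¹' {y}) / cI u₀) • y, fun u => ?_⟩
  have hfi : Integrable f μ := f.integrable_of_isFiniteMeasure
  have h1 : ∫ x, |inner ℝ (f x) u| ∂μ = ∑ y ∈ f.range, μ.real (f ⁻¹' {y}) * |inner ℝ y u| := by
    have := SimpleFunc.map_integral f (fun y : V => |inner ℝ y u|) hfi (by simp)
    simp only [smul_eq_mul] at this
    rw [← this, SimpleFunc.integral_eq_integral]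
    · rfl
    · exact (f.map _).integrable_of_isFiniteMeasure
  have h2 : ∑ y ∈ f.range, |inner ℝ ((μ.real (f ⁻¹' {y}) / cI u₀) • y) u| =
      (∫ x, |inner ℝ (f x) u| ∂μ) / cI u₀ := by
    rw [h1, Finset.sum_div]
    apply Finset.sum_congr rfl
    intro y _
    rw [real_inner_smul_left, abs_mul, abs_of_nonneg (by positivity)]
    ring
  have h3 : |∫ x, |inner ℝ (f x) u| ∂μ - cI u| ≤ ε * cI u₀ * ‖u‖ := by
    rw [cI, ← integral_sub]
    · calc |∫ x, (|inner ℝ (f x) u| - |inner ℝ x u|) ∂μ|
          ≤ ∫ x, |(|inner ℝ (f x) u| - |inner ℝ x u|)| ∂μ := abs_integral_le_integral_abs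
        _ ≤ ∫ x, (ε * cI u₀ / (Vo + 1)) * ‖u‖ ∂μ := by
            apply integral_mono_ae
            · apply Integrable.abs
              apply Integrable.sub _ (cI_integrable u)
              exact (f.map (fun y : V => |inner ℝ y u|)).integrable_of_isFiniteMeasure
            · exact integrable_const _
            · rw [hμ]
              filter_upwards [ae_restrict_mem isClosed_closedBall.measurableSet] with x hx
              calc |(|inner ℝ (f x) u| - |inner ℝ x u|)| ≤ |inner ℝ (f x) u - inner ℝ x u| :=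
                    abs_abs_sub_abs_le _ _
                _ = |inner ℝ (f x - x) u| := by rw [inner_sub_left]
                _ ≤ ‖f x - x‖ * ‖u‖ := abs_real_inner_le_norm _ _
                _ ≤ _ := by
                  gcongr
                  rw [← dist_eq_norm]; exact hN x hx
        _ = Vo * ((ε * cI u₀ / (Vo + 1)) * ‖u‖) := by
            rw [integral_const, smul_eq_mul, Measure.real, hμ, Measure.restrict_apply_univ]; rfl
        _ = (Vo / (Vo + 1)) * (ε * cI u₀ * ‖u‖) := by field_simp
        _ ≤ 1 * (ε * cI u₀ * ‖u‖) := by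
            gcongr
            rw [div_le_one (by linarith)]; linarith
        _ = _ := one_mul _
    · exact (f.map (fun y : V => |inner ℝ y u|)).integrable_of_isFiniteMeasure
    · exact cI_integrable u
  simp only
  rw [h2]
  rw [cI_eq h₀ u, abs_le] at h3
  constructor
  · rw [le_div_iff₀ hc]; linarith [h3.1]
  · rw [div_le_iff₀ hc]; linarith [h3.2]

end Pool.Agent.H705R3
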