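import Pool.Agent.H705R3.Ball

/-! Zonotopes close to the ball. -/

namespace Pool.Agent.H705R3
open MeasureTheory Set Pointwise Metric

variable {V : Type*} [NormedAddCommGroup V] [InnerProductSpace ℝ V]

lemma mem_Zs {κ : Type*} (t : Finset κ) (v : κ → V) (τ : κ → ℝ) (z : V) :
    z ∈ Zs t v τ ↔ ∃ r : κ → ℝ, (∀ l ∈ t, r l ∈ Icc 0 (τ l)) ∧ ∑ l ∈ t, r l • v l = z := by
  unfold Zs
  rw [Set.mem_finsetSum]
  constructor
  · rintro ⟨g, hg, rfl⟩
    choose! r hr1 hr2 using fun l (hl : l ∈ t) => hg hl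
    refine ⟨r, fun l hl => hr1 l hl, Finset.sum_congr rfl fun l hl => hr2 l hl⟩
  · rintro ⟨r, hr, rfl⟩
    exact ⟨fun l => r l • v l, fun {l} hl => ⟨r l, hr l hl, rfl⟩, rfl⟩

variable [MeasurableSpace V] [BorelSpace V] [FiniteDimensional ℝ V]

lemma zono_ball {u₀ : V} (h₀ : ‖u₀‖ = 1) {ε : ℝ} (hε : 0 < ε) :
    ∃ (N : ℕ) (v : Fin N → V) (p : V),
      closedBall p (1 - ε) ⊆ Zs Finset.univ v (fun _ => 1) ∧
      Zs Finset.univ v (fun _ => 1) ⊆ closedBall p (1 + ε) := by
  obtain ⟨t, w, hw⟩ := approx_norm h₀ hε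
  have hsum : ∀ g : V → ℝ, ∑ i : Fin t.card, g (w (t.equivFin.symm i)) = ∑ y ∈ t, g (w y) := by
    intro g
    rw [← Finset.sum_coe_sort t, ← Equiv.sum_comp t.equivFin.symm]
  set w' : Fin t.card → V := fun i => w (t.equivFin.symm i) with hw'
  have hw2 : ∀ u : V, (1 - ε) * ‖u‖ ≤ ∑ i, |inner ℝ (w' i) u| ∧
      ∑ i, |inner ℝ (w' i) u| ≤ (1 + ε) * ‖u‖ := by
    intro u
    rw [hsum (fun y => |inner ℝ y u|)]
    exact hw u
  clear_value w'
  refine ⟨t.card, fun i => (2 : ℝ) • w' i, ∑ i, w' i, ?_, ?_⟩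
  · intro y hy
    by_contra hny
    obtain ⟨f, s, hf1, hf2⟩ := geometric_hahn_banach_closed_point (Zs_convex Finset.univ
      (fun i => (2 : ℝ) • w' i) (fun _ => 1)) (Zs_compact Finset.univ _ _).isClosed hny
    set a := (InnerProductSpace.toDual ℝ V).symm f with ha
    have hfa : ∀ x, f x = inner ℝ a x := fun x => by
      rw [ha, InnerProductSpace.toDual_symm_apply]
    -- the maximiser
    set z := ∑ i, (if 0 ≤ inner ℝ (w' i) a then (1 : ℝ) else 0) • ((2 : ℝ) • w' i) with hz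
    have hzm : z ∈ Zs Finset.univ (fun i => (2 : ℝ) • w' i) (fun _ => 1) := by
      rw [mem_Zs]
      refine ⟨fun i => if 0 ≤ inner ℝ (w' i) a then (1 : ℝ) else 0, fun l _ => ?_, rfl⟩
      simp only
      split_ifs <;> constructor <;> norm_num
    have h1 := hf1 z hzm
    have h2 : f z - f (∑ i, w' i) = ∑ i, |inner ℝ (w' i) a| := by
      rw [← map_sub, hz, ← Finset.sum_sub_distrib, map_sum]
      apply Finset.sum_congr rfl
      intro i _
      rw [hfa, real_inner_comm]
      split_ifs with h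
      · rw [abs_of_nonneg h, one_smul, two_smul, add_sub_cancel_right]
      · push Not at h
        rw [abs_of_neg h, zero_smul, zero_sub, inner_neg_left]
    have h3 : f y - f (∑ i, w' i) ≤ (1 - ε) * ‖a‖ := by
      rw [← map_sub, hfa]
      refine (real_inner_le_norm _ _).trans ?_
      rw [mem_closedBall, dist_eq_norm] at hy
      rw [mul_comm]
      gcongr
    have h4 := (hw2 a).1
    linarith
  · intro z hz
    rw [mem_Zs] at hz
    obtain ⟨r, hr, rfl⟩ := hz
    rw [mem_closedBall, dist_eq_norm]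
    set d := ∑ i, r i • (2 : ℝ) • w' i - ∑ i, w' i with hd
    have h1 : ‖d‖ * ‖d‖ ≤ (1 + ε) * ‖d‖ := by
      rw [← real_inner_self_eq_norm_mul_norm]
      refine le_trans ?_ (hw2 d).2
      nth_rewrite 1 [hd]
      rw [← Finset.sum_sub_distrib, sum_inner]
      apply Finset.sum_le_sum
      intro i _
      have : r i • (2 : ℝ) • w' i - w' i = (2 * r i - 1) • w' i := by
        rw [smul_smul, sub_smul, one_smul, mul_comm]
      rw [this, real_inner_smul_left]
      obtain ⟨h0, h1⟩ := hr i (Finset.mem_univ i)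
      calc (2 * r i - 1) * inner ℝ (w' i) d ≤ |(2 * r i - 1) * inner ℝ (w' i) d| := le_abs_self _
        _ = |2 * r i - 1| * |inner ℝ (w' i) d| := abs_mul _ _
        _ ≤ 1 * |inner ℝ (w' i) d| := by
          gcongr
          rw [abs_le]; constructor <;> linarith
        _ = _ := one_mul _
    by_cases h0 : ‖d‖ = 0
    · rw [h0]; linarith
    · exact le_of_mul_le_mul_right h1 (lt_of_le_of_ne (norm_nonneg _) (Ne.symm h0))

end Pool.Agent.H705R3
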