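import Mathlib

/-! `x ↦ vol (diag(x) K + C)` is convex in every coordinate. -/

namespace Pool.Agent.H705R3
open MeasureTheory Set Pointwise

variable {m n : ℕ}

/-- the image of `K` under the diagonal matrix `diag x` -/
def dil (x : Fin m → ℝ) (K : Set (Fin m → ℝ)) : Set (Fin m → ℝ) := (fun k => x * k) '' K

lemma dil_compact (x : Fin m → ℝ) {K : Set (Fin m → ℝ)} (hK : IsCompact K) : IsCompact (dil x K) :=
  hK.image (by fun_prop)

lemma dil_convex (x : Fin m → ℝ) {K : Set (Fin m → ℝ)} (hK : Convex ℝ K) : Convex ℝ (dil x K) :=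
  hK.is_linear_image ⟨fun a b => mul_add x a b, fun c a => by simp⟩

lemma vol_slice (i : Fin (n + 1)) {M : Set (Fin (n + 1) → ℝ)} (hM : MeasurableSet M) :
    volume M = ∫⁻ y : Fin n → ℝ, volume {r : ℝ | i.insertNth (α := fun _ => ℝ) r y ∈ M} := by
  have h := volume_preserving_piFinSuccAbove (fun _ : Fin (n + 1) => ℝ) i
  have h2 := (h.symm (MeasurableEquiv.piFinSuccAbove (fun _ : Fin (n + 1) => ℝ) i)).measure_preimage
    hM.nullMeasurableSet
  rw [← h2, Measure.volume_eq_prod, Measure.prod_apply_symm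
    ((MeasurableEquiv.piFinSuccAbove (fun _ : Fin (n + 1) => ℝ) i).symm.measurable hM)]
  rfl


/-- slice of `diag(update x i t) K + C` along the `i`-th direction -/
def sl (i : Fin (n + 1)) (x : Fin (n + 1) → ℝ) (K C : Set (Fin (n + 1) → ℝ)) (y : Fin n → ℝ)
    (t : ℝ) : Set ℝ :=
  {r : ℝ | i.insertNth (α := fun _ => ℝ) r y ∈ dil (Function.update x i t) K + C}

lemma sl_mem (i : Fin (n + 1)) (x : Fin (n + 1) → ℝ) (K C : Set (Fin (n + 1) → ℝ))
    (y : Fin n → ℝ) (t r : ℝ) : r ∈ sl i x K C y t ↔ ∃ k ∈ K, ∃ c ∈ C,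
      r = t * k i + c i ∧ ∀ j, y j = x (i.succAbove j) * k (i.succAbove j) + c (i.succAbove j) := by
  constructor
  · rintro ⟨_, ⟨k, hk, rfl⟩, c, hc, h⟩
    refine ⟨k, hk, c, hc, ?_, fun j => ?_⟩
    · have := congrFun h i
      simp at this
      linarith
    · have := congrFun h (i.succAbove j)
      simp at this
      linarith
  · rintro ⟨k, hk, c, hc, h1, h2⟩
    refine ⟨_, ⟨k, hk, rfl⟩, c, hc, ?_⟩
    ext j
    refine Fin.succAboveCases i ?_ ?_ j
    · simp [h1]
    · intro j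
      simp [h2]

lemma sl_closed (i : Fin (n + 1)) (x : Fin (n + 1) → ℝ) {K C : Set (Fin (n + 1) → ℝ)}
    (hK : IsCompact K) (hC : IsCompact C) (y : Fin n → ℝ) (t : ℝ) : IsCompact (sl i x K C y t) := by
  have hM : IsCompact (dil (Function.update x i t) K + C) := (dil_compact _ hK).add hC
  have h1 : IsClosed (sl i x K C y t) := by
    apply hM.isClosed.preimage
    fun_prop
  have h2 : IsCompact ((fun p : Fin (n + 1) → ℝ => p i) '' (dil (Function.update x i t) K + C)) :=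
    hM.image (by fun_prop)
  apply h2.of_isClosed_subset h1
  intro r hr
  exact ⟨_, hr, by simp⟩

lemma sl_convex (i : Fin (n + 1)) (x : Fin (n + 1) → ℝ) {K C : Set (Fin (n + 1) → ℝ)}
    (hK : Convex ℝ K) (hC : Convex ℝ C) (y : Fin n → ℝ) (t : ℝ) : Convex ℝ (sl i x K C y t) := by
  intro r1 h1 r2 h2 a b ha hb hab
  rw [sl_mem] at h1 h2 ⊢
  obtain ⟨k1, hk1, c1, hc1, e1, f1⟩ := h1
  obtain ⟨k2, hk2, c2, hc2, e2, f2⟩ := h2
  refine ⟨a • k1 + b • k2, hK hk1 hk2 ha hb hab, a • c1 + b • c2, hC hc1 hc2 ha hb hab, ?_, ?_⟩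
  · simp only [Pi.add_apply, Pi.smul_apply, smul_eq_mul]
    rw [e1, e2]; ring
  · intro j
    simp only [Pi.add_apply, Pi.smul_apply, smul_eq_mul]
    have : y j = a * y j + b * y j := by rw [← add_mul, hab, one_mul]
    rw [this]; nth_rewrite 1 [f1 j]; rw [f2 j]; ring

lemma slice_ineq (i : Fin (n + 1)) (x : Fin (n + 1) → ℝ) {K C : Set (Fin (n + 1) → ℝ)}
    (hKc : IsCompact K) (hCc : IsCompact C) (hK : Convex ℝ K) (hC : Convex ℝ C) (y : Fin n → ℝ)
    {a b θ : ℝ} (hθ0 : 0 ≤ θ) (hθ1 : θ ≤ 1) :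
    volume (sl i x K C y ((1 - θ) * a + θ * b)) ≤
      ENNReal.ofReal (1 - θ) * volume (sl i x K C y a) + ENNReal.ofReal θ * volume (sl i x K C y b) := by
  rcases (sl i x K C y ((1 - θ) * a + θ * b)).eq_empty_or_nonempty with he | hne
  · rw [he]; simp
  have hc := sl_closed i x hKc hCc y ((1 - θ) * a + θ * b)
  obtain ⟨r1, hr1, hr1'⟩ := hc.exists_isGreatest hne
  obtain ⟨r2, hr2, hr2'⟩ := hc.exists_isLeast hne
  have h1 : volume (sl i x K C y ((1 - θ) * a + θ * b)) ≤ ENNReal.ofReal (r1 - r2) := by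
    rw [← Real.volume_Icc]
    exact measure_mono fun r hr => ⟨hr2' hr, hr1' hr⟩
  rw [sl_mem] at hr1 hr2
  obtain ⟨k1, hk1, c1, hc1, e1, f1⟩ := hr1
  obtain ⟨k2, hk2, c2, hc2, e2, f2⟩ := hr2
  have low : ∀ t, ENNReal.ofReal ((t * k1 i + c1 i) - (t * k2 i + c2 i)) ≤
      volume (sl i x K C y t) := by
    intro t
    rw [← Real.volume_Icc]
    apply measure_mono
    apply (sl_convex i x hK hC y t).ordConnected.out
    · rw [sl_mem]; exact ⟨k2, hk2, c2, hc2, rfl, f2⟩
    · rw [sl_mem]; exact ⟨k1, hk1, c1, hc1, rfl, f1⟩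
  calc _ ≤ ENNReal.ofReal (r1 - r2) := h1
    _ = ENNReal.ofReal ((1 - θ) * ((a * k1 i + c1 i) - (a * k2 i + c2 i)) +
        θ * ((b * k1 i + c1 i) - (b * k2 i + c2 i))) := by rw [e1, e2]; congr 1; ring
    _ ≤ ENNReal.ofReal ((1 - θ) * ((a * k1 i + c1 i) - (a * k2 i + c2 i))) +
        ENNReal.ofReal (θ * ((b * k1 i + c1 i) - (b * k2 i + c2 i))) := ENNReal.ofReal_add_le
    _ = ENNReal.ofReal (1 - θ) * ENNReal.ofReal ((a * k1 i + c1 i) - (a * k2 i + c2 i)) +
        ENNReal.ofReal θ * ENNReal.ofReal ((b * k1 i + c1 i) - (b * k2 i + c2 i)) := by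
      rw [ENNReal.ofReal_mul (by linarith), ENNReal.ofReal_mul hθ0]
    _ ≤ _ := by gcongr <;> exact low _

lemma vol_convex (i : Fin (n + 1)) (x : Fin (n + 1) → ℝ) {K C : Set (Fin (n + 1) → ℝ)}
    (hKc : IsCompact K) (hCc : IsCompact C) (hK : Convex ℝ K) (hC : Convex ℝ C)
    {a b θ : ℝ} (hθ0 : 0 ≤ θ) (hθ1 : θ ≤ 1) :
    volume (dil (Function.update x i ((1 - θ) * a + θ * b)) K + C) ≤
      ENNReal.ofReal (1 - θ) * volume (dil (Function.update x i a) K + C) +
      ENNReal.ofReal θ * volume (dil (Function.update x i b) K + C) := by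
  have hm : ∀ t, MeasurableSet (dil (Function.update x i t) K + C) := fun t =>
    ((dil_compact _ hKc).add hCc).measurableSet
  rw [vol_slice i (hm _), vol_slice i (hm a), vol_slice i (hm b)]
  rw [← lintegral_const_mul' _ _ ENNReal.ofReal_ne_top, ← lintegral_const_mul' _ _ ENNReal.ofReal_ne_top,
    ← lintegral_add_left']
  · apply lintegral_mono
    intro y
    exact slice_ineq i x hKc hCc hK hC y hθ0 hθ1
  · apply AEMeasurable.const_mul
    have h := (MeasurableEquiv.piFinSuccAbove (fun _ : Fin (n + 1) => ℝ) i).symm.measurable (hm a)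
    exact (measurable_measure_prodMk_right h).aemeasurable

/-- the real valued version -/
lemma F_convex (i : Fin (n + 1)) (x : Fin (n + 1) → ℝ) {K C : Set (Fin (n + 1) → ℝ)}
    (hKc : IsCompact K) (hCc : IsCompact C) (hK : Convex ℝ K) (hC : Convex ℝ C)
    {a b θ : ℝ} (hθ0 : 0 ≤ θ) (hθ1 : θ ≤ 1) :
    volume.real (dil (Function.update x i ((1 - θ) * a + θ * b)) K + C) ≤
      (1 - θ) * volume.real (dil (Function.update x i a) K + C) +
      θ * volume.real (dil (Function.update x i b) K + C) := by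
  have hfin : ∀ t, volume (dil (Function.update x i t) K + C) ≠ ⊤ := fun t =>
    ((dil_compact _ hKc).add hCc).measure_lt_top.ne
  have h := vol_convex i x hKc hCc hK hC (a := a) (b := b) hθ0 hθ1
  have h2 := ENNReal.toReal_mono (by
    apply ENNReal.add_ne_top.mpr
    exact ⟨ENNReal.mul_ne_top ENNReal.ofReal_ne_top (hfin a),
      ENNReal.mul_ne_top ENNReal.ofReal_ne_top (hfin b)⟩) h
  rw [ENNReal.toReal_add (ENNReal.mul_ne_top ENNReal.ofReal_ne_top (hfin a))
    (ENNReal.mul_ne_top ENNReal.ofReal_ne_top (hfin b)), ENNReal.toReal_mul, ENNReal.toReal_mul,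
    ENNReal.toReal_ofReal (by linarith), ENNReal.toReal_ofReal hθ0] at h2
  exact h2

end Pool.Agent.H705R3
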