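import Pool.Agent.H705R3.Stage

/-! Passage to the limit. -/

namespace Pool.Agent.H705R3
open MeasureTheory Set Pointwise Metric Function Polynomial Filter

lemma deg_bound {Q P : ℝ[X]} {m : ℕ} (hP : P.natDegree ≤ m) {c : ℝ}
    (h0 : ∀ t, 0 ≤ t → 0 ≤ Q.eval t) (h1 : ∀ t, 0 ≤ t → Q.eval t ≤ P.eval (t * c)) :
    Q.natDegree ≤ m := by
  by_contra hlt
  push Not at hlt
  set R : ℝ[X] := P.comp (X * C c) with hR
  have hRd : R.natDegree ≤ m := by
    rw [hR]
    refine natDegree_comp_le.trans ?_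
    have : (X * C c : ℝ[X]).natDegree ≤ 1 := by
      refine (natDegree_mul_le).trans ?_
      simp
    calc P.natDegree * (X * C c : ℝ[X]).natDegree ≤ m * 1 := Nat.mul_le_mul hP this
      _ = m := mul_one m
  have hQpos : 0 < Q.natDegree := by omega
  have hQdeg : 0 < Q.degree := natDegree_pos_iff_degree_pos.mp hQpos
  rcases le_total 0 Q.leadingCoeff with hl | hl
  · have hRQ : R.degree < Q.degree := degree_lt_degree (lt_of_le_of_lt hRd hlt)
    have hDdeg : (Q - R).degree = Q.degree := degree_sub_eq_left_of_degree_lt hRQ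
    have hDl : (Q - R).leadingCoeff = Q.leadingCoeff := leadingCoeff_sub_of_degree_lt hRQ
    have ht := tendsto_atTop_of_leadingCoeff_nonneg (Q - R) (by rw [hDdeg]; exact hQdeg)
      (by rw [hDl]; exact hl)
    obtain ⟨t, ht1, ht2⟩ := ((ht.eventually_gt_atTop 0).and (eventually_ge_atTop 0)).exists
    have := h1 t ht2
    rw [eval_sub, hR, eval_comp] at ht1
    simp only [eval_mul, eval_X, eval_C] at ht1
    linarith
  · have ht := tendsto_atBot_of_leadingCoeff_nonpos Q hQdeg hl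
    obtain ⟨t, ht1, ht2⟩ := ((ht.eventually_lt_atBot 0).and (eventually_ge_atTop 0)).exists
    have := h0 t ht2
    linarith

lemma coeff_eq_lagrange {Q : ℝ[X]} {m : ℕ} (hQ : Q.natDegree ≤ m) (k : ℕ) :
    Q.coeff k = ∑ i ∈ Finset.range (m + 1), Q.eval (i : ℝ) *
      (Lagrange.basis (Finset.range (m + 1)) (fun i : ℕ => (i : ℝ)) i).coeff k := by
  have h := Lagrange.eq_interpolate (f := Q) (s := Finset.range (m + 1))
    (v := fun i : ℕ => (i : ℝ)) (by
      intro a _ b _ hab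
      simpa using hab) (by
      rw [Finset.card_range]
      exact lt_of_le_of_lt degree_le_natDegree (by exact_mod_cast Nat.lt_succ_of_le hQ))
  conv_lhs => rw [h]
  rw [Lagrange.interpolate_apply, finsetSum_coeff]
  apply Finset.sum_congr rfl
  intro i _
  rw [coeff_C_mul]

lemma tendsto_coeff {m : ℕ} {P : ℝ[X]} (hP : P.natDegree ≤ m) {Q : ℕ → ℝ[X]}
    (h : ∀ N : ℕ, ∀ t : ℝ, 0 ≤ t → P.eval (t * (1 - 1 / ((N : ℝ) + 2))) ≤ (Q N).eval t ∧
      (Q N).eval t ≤ P.eval (t * (1 + 1 / ((N : ℝ) + 2))))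
    (h0 : ∀ t, 0 ≤ t → 0 ≤ P.eval t) (k : ℕ) :
    Tendsto (fun N => (Q N).coeff k) atTop (nhds (P.coeff k)) := by
  have hd : ∀ N, (Q N).natDegree ≤ m := by
    intro N
    have hN : (1 : ℝ) / ((N : ℝ) + 2) ≤ 1 := by
      rw [div_le_one (by positivity)]
      have : (0 : ℝ) ≤ N := Nat.cast_nonneg N
      linarith
    exact deg_bound hP (fun t ht => (h0 _ (mul_nonneg ht (by linarith))).trans (h N t ht).1)
      (fun t ht => (h N t ht).2)
  have heq : ∀ N, (Q N).coeff k = _ := fun N => coeff_eq_lagrange (hd N) k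
  simp_rw [heq]
  rw [coeff_eq_lagrange hP k]
  apply tendsto_finsetSum
  intro i _
  apply Tendsto.mul_const
  have hlim : Tendsto (fun N : ℕ => (1 : ℝ) / ((N : ℝ) + 2)) atTop (nhds 0) := by
    apply Tendsto.div_atTop tendsto_const_nhds
    exact tendsto_atTop_add_const_right _ _ tendsto_natCast_atTop_atTop
  have c1 : Tendsto (fun N : ℕ => P.eval ((i : ℝ) * (1 - 1 / ((N : ℝ) + 2)))) atTop
      (nhds (P.eval (i : ℝ))) := by
    have := (P.continuous.tendsto ((i : ℝ) * (1 - 0))).comp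
      (((tendsto_const_nhds (x := (1 : ℝ))).sub hlim).const_mul (i : ℝ))
    simpa [Function.comp_def] using this
  have c2 : Tendsto (fun N : ℕ => P.eval ((i : ℝ) * (1 + 1 / ((N : ℝ) + 2)))) atTop
      (nhds (P.eval (i : ℝ))) := by
    have := (P.continuous.tendsto ((i : ℝ) * (1 + 0))).comp
      (((tendsto_const_nhds (x := (1 : ℝ))).add hlim).const_mul (i : ℝ))
    simpa [Function.comp_def] using this
  exact tendsto_of_tendsto_of_tendsto_of_le_of_le c1 c2
    (fun N => (h N i (Nat.cast_nonneg i)).1) (fun N => (h N i (Nat.cast_nonneg i)).2)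

/-- the Steiner polynomial with coefficients `a` -/
noncomputable def St (m : ℕ) (a : ℕ → ℝ) : ℝ[X] :=
  ∑ j ∈ Finset.range (m + 1),
    C ((volume (ball (0 : EuclideanSpace ℝ (Fin (m - j))) 1)).toReal * a j) * X ^ (m - j)

lemma St_eval (m : ℕ) (a : ℕ → ℝ) (t : ℝ) : (St m a).eval t =
    ∑ j ∈ Finset.range (m + 1),
      (volume (ball (0 : EuclideanSpace ℝ (Fin (m - j))) 1)).toReal * a j * t ^ (m - j) := by
  unfold St
  rw [eval_finsetSum]
  apply Finset.sum_congr rfl
  intro j _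
  simp

lemma St_natDegree (m : ℕ) (a : ℕ → ℝ) : (St m a).natDegree ≤ m := by
  unfold St
  apply natDegree_sum_le_of_forall_le
  intro j _
  exact (natDegree_C_mul_X_pow_le _ _).trans (Nat.sub_le _ _)

lemma St_coeff (m : ℕ) (a : ℕ → ℝ) {n : ℕ} (hn : n ≤ m) : (St m a).coeff (m - n) =
    (volume (ball (0 : EuclideanSpace ℝ (Fin (m - n))) 1)).toReal * a n := by
  unfold St
  rw [finsetSum_coeff]
  rw [Finset.sum_eq_single n]
  · rw [coeff_C_mul, coeff_X_pow, if_pos rfl, mul_one]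
  · intro j hj hjn
    rw [coeff_C_mul, coeff_X_pow, if_neg, mul_zero]
    have := Finset.mem_range.mp hj
    omega
  · intro h
    exact absurd (Finset.mem_range.mpr (by omega)) h

theorem final {n : ℕ} {K : Set (EuclideanSpace ℝ (Fin (n + 1)))} (hKc : IsCompact K)
    (hK : Convex ℝ K) (a : ℕ → ℝ) (b : Fin (n + 1) → ℕ → ℝ)
    (ha : ∀ t : ℝ, 0 ≤ t → volume.real (cthickening t K) = (St (n + 1) a).eval t)
    (hb : ∀ i, ∀ t : ℝ, 0 ≤ t → volume.real (cthickening t (prE i K)) = (St (n + 1) (b i)).eval t)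
    (k : ℕ) (hk : k < n + 1) :
    (((n + 1 : ℕ) : ℝ) - (k : ℝ)) * a k ≤ ∑ i, b i k := by
  have hst : ∀ N : ℕ, _ := fun N : ℕ => stage hKc hK (ε := 1 / ((N : ℝ) + 2)) (by positivity) (by
    rw [div_lt_one (by positivity)]
    have : (0 : ℝ) ≤ N := Nat.cast_nonneg N
    linarith)
  choose Q Qi hQ hQi hco using hst
  have hε : ∀ N : ℕ, 0 ≤ 1 - 1 / ((N : ℝ) + 2) := by
    intro N
    rw [sub_nonneg, div_le_one (by positivity)]
    have : (0 : ℝ) ≤ N := Nat.cast_nonneg N
    linarith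
  have l1 : Tendsto (fun N => (Q N).coeff (n + 1 - k)) atTop
      (nhds ((St (n + 1) a).coeff (n + 1 - k))) := by
    apply tendsto_coeff (St_natDegree _ _)
    · intro N t ht
      have := hQ N t ht
      rwa [ha _ (mul_nonneg ht (hε N)), ha _ (mul_nonneg ht (by positivity))] at this
    · intro t ht
      rw [← ha t ht]; exact measureReal_nonneg
  have l2 : ∀ i, Tendsto (fun N => (Qi N i).coeff (n + 1 - k)) atTop
      (nhds ((St (n + 1) (b i)).coeff (n + 1 - k))) := by
    intro i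
    apply tendsto_coeff (St_natDegree _ _)
    · intro N t ht
      have := hQi N i t ht
      rwa [hb i _ (mul_nonneg ht (hε N)), hb i _ (mul_nonneg ht (by positivity))] at this
    · intro t ht
      rw [← hb i t ht]; exact measureReal_nonneg
  have l3 := le_of_tendsto_of_tendsto' (l1.const_mul ((n + 1 - k : ℕ) : ℝ))
    (tendsto_finsetSum Finset.univ (fun i _ => l2 i)) (fun N => hco N (n + 1 - k))
  rw [St_coeff _ _ hk.le] at l3
  simp_rw [St_coeff (n + 1) _ hk.le] at l3
  rw [← Finset.mul_sum] at l3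
  have hω : 0 < (volume (ball (0 : EuclideanSpace ℝ (Fin (n + 1 - k))) 1)).toReal := by
    rw [ENNReal.toReal_pos_iff]
    exact ⟨measure_ball_pos _ _ one_pos, measure_ball_lt_top⟩
  rw [Nat.cast_sub hk.le] at l3
  have l4 : (volume (ball (0 : EuclideanSpace ℝ (Fin (n + 1 - k))) 1)).toReal *
      ((((n + 1 : ℕ) : ℝ) - (k : ℝ)) * a k) ≤
      (volume (ball (0 : EuclideanSpace ℝ (Fin (n + 1 - k))) 1)).toReal * ∑ i, b i k := by
    calc _ = (((n + 1 : ℕ) : ℝ) - (k : ℝ)) *
      ((volume (ball (0 : EuclideanSpace ℝ (Fin (n + 1 - k))) 1)).toReal * a k) := by ring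
      _ ≤ _ := l3
  exact le_of_mul_le_mul_left l4 hω

end Pool.Agent.H705R3
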