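import Mathlib

/-! A separately convex function along the diagonal. -/

namespace Pool.Agent.H705R3
open Set Function

variable {ι : Type*} [Fintype ι] [DecidableEq ι]

section
variable (F : (ι → ℝ) → ℝ) (M : ℝ)
  (hconv : ∀ x i a b θ, 0 ≤ θ → θ ≤ 1 →
    F (update x i ((1 - θ) * a + θ * b)) ≤ (1 - θ) * F (update x i a) + θ * F (update x i b))
  (h0 : ∀ x, 0 ≤ F x) (hM : ∀ x, (∀ i, x i ∈ Icc (0 : ℝ) 2) → F x ≤ M)

include hconv h0 hM

omit [Fintype ι] in
lemma lip1 {x : ι → ℝ} (hx : ∀ i, x i ∈ Icc (0 : ℝ) 2) (i : ι) (hi : x i = 1) {s : ℝ}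
    (hs0 : 0 ≤ s) (hs1 : s ≤ 1) :
    |F (update x i (1 - s)) - F x| ≤ s * M := by
  have hup : update x i 1 = x := by rw [← hi]; exact update_eq_self i x
  have hxu : ∀ c, c ∈ Icc (0 : ℝ) 2 → ∀ j, update x i c j ∈ Icc (0 : ℝ) 2 := by
    intro c hc j
    by_cases h : j = i
    · subst h; simpa using hc
    · rw [update_of_ne h]; exact hx j
  rw [abs_le]
  constructor
  · have h := hconv x i (1 - s) 2 (s / (1 + s)) (by positivity)
      (by rw [div_le_one (by linarith)]; linarith)
    have e : (1 - s / (1 + s)) * (1 - s) + s / (1 + s) * 2 = 1 := by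
      have : (1 + s) ≠ 0 := by linarith
      field_simp; ring
    rw [e, hup] at h
    have h2 := hM _ (hxu 2 ⟨by norm_num, le_refl _⟩)
    have h3 := h0 (update x i (1 - s))
    have h5 := h0 (update x i 2)
    have h4 : s / (1 + s) ≤ s := div_le_self hs0 (by linarith)
    have h6 : 0 ≤ s / (1 + s) := by positivity
    nlinarith
  · have h := hconv x i 1 0 s hs0 hs1
    rw [hup, show (1 - s) * 1 + s * 0 = 1 - s by ring] at h
    have h2 := hM _ (hxu 0 ⟨le_refl _, by norm_num⟩)
    have h3 := h0 x
    nlinarith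

omit [Fintype ι] in
lemma lipT {s : ℝ} (hs0 : 0 ≤ s) (hs1 : s ≤ 1) (T : Finset ι) :
    ∀ y : ι → ℝ, (∀ i, y i ∈ Icc (0 : ℝ) 2) → (∀ i ∈ T, y i = 1) →
    |F (fun i => if i ∈ T then 1 - s else y i) - F y| ≤ T.card * (s * M) := by
  induction T using Finset.induction_on with
  | empty => intro y _ _; simp
  | insert a T ha ih =>
    intro y hy hy1
    have e : (fun i => if i ∈ insert a T then 1 - s else y i) =
        update (fun i => if i ∈ T then 1 - s else y i) a (1 - s) := by
      ext i
      by_cases h : i = a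
      · subst h; simp
      · rw [update_of_ne h]; simp [h]
    have hx : ∀ i, (fun i => if i ∈ T then 1 - s else y i) i ∈ Icc (0 : ℝ) 2 := by
      intro i
      by_cases h : i ∈ T
      · simp only [h, if_true]; exact ⟨by linarith, by linarith⟩
      · simp only [h, if_false]; exact hy i
    have h1 := lip1 F M hconv h0 hM hx a (by simp [ha, hy1 a (Finset.mem_insert_self a T)]) hs0 hs1
    have h2 := ih y hy (fun i hi => hy1 i (Finset.mem_insert_of_mem hi))
    rw [e, Finset.card_insert_of_notMem ha]
    push_cast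
    rw [abs_le] at h1 h2 ⊢
    constructor <;> linarith [h1.1, h1.2, h2.1, h2.2]

lemma main_sep {s : ℝ} (hs0 : 0 ≤ s) (hs1 : s ≤ 1) (T : Finset ι) :
    F (fun i => if i ∈ T then 1 - s else 1) - F (fun _ => 1) ≤
      s * ∑ i ∈ T, (F (update (fun _ => 1) i 0) - F (fun _ => 1)) +
        T.card * (2 * (Fintype.card ι) * M) * s ^ 2 := by
  have hM0 : 0 ≤ M := (h0 (fun _ => 1)).trans (hM _ (fun _ => ⟨by norm_num, by norm_num⟩))
  induction T using Finset.induction_on with
  | empty => simp
  | insert a T ha ih =>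
    have e : (fun i => if i ∈ insert a T then 1 - s else (1 : ℝ)) =
        update (fun i => if i ∈ T then 1 - s else 1) a ((1 - s) * 1 + s * 0) := by
      ext i
      by_cases h : i = a
      · subst h; simp
      · rw [update_of_ne h]; simp [h]
    have h1 := hconv (fun i => if i ∈ T then 1 - s else 1) a 1 0 s hs0 hs1
    have e1 : update (fun i => if i ∈ T then 1 - s else (1 : ℝ)) a 1 =
        fun i => if i ∈ T then 1 - s else 1 := by
      ext i
      by_cases h : i = a
      · subst h; simp [ha]
      · rw [update_of_ne h]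
    rw [← e, e1] at h1
    have h2 := lipT F M hconv h0 hM hs0 hs1 T (update (fun _ => 1) a 0) (by
      intro i
      by_cases h : i = a
      · subst h; simp
      · rw [update_of_ne h]; exact ⟨by norm_num, by norm_num⟩) (by
      intro i hi
      have : i ≠ a := fun h => ha (h ▸ hi)
      rw [update_of_ne this])
    have e2 : (fun i => if i ∈ T then 1 - s else update (fun _ => (1 : ℝ)) a 0 i) =
        update (fun i => if i ∈ T then 1 - s else 1) a 0 := by
      ext i
      by_cases h : i = a
      · subst h; simp [ha]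
      · rw [update_of_ne h, update_of_ne h]
    rw [e2] at h2
    have h3 := lipT F M hconv h0 hM hs0 hs1 T (fun _ => 1) (fun _ => ⟨by norm_num, by norm_num⟩)
      (fun _ _ => rfl)
    rw [abs_le] at h2 h3
    rw [Finset.sum_insert ha, Finset.card_insert_of_notMem ha]
    have hc : (T.card : ℝ) ≤ Fintype.card ι := by exact_mod_cast Finset.card_le_univ T
    have h4 : T.card * (s * M) ≤ Fintype.card ι * (s * M) := by gcongr
    have h5 : s * (F (update (fun i => if i ∈ T then 1 - s else 1) a 0) -
        F (fun i => if i ∈ T then 1 - s else 1)) ≤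
        s * (F (update (fun _ => 1) a 0) - F (fun _ => 1) + 2 * (Fintype.card ι * (s * M))) := by
      apply mul_le_mul_of_nonneg_left _ hs0
      linarith [h2.2, h3.1]
    push_cast
    nlinarith [h5, h1, ih]

lemma deriv_le {D : ℝ} (hD : HasDerivAt (fun s => F (fun _ => 1 - s)) D 0) :
    D ≤ ∑ i, (F (update (fun _ => 1) i 0) - F (fun _ => 1)) := by
  have ht := hD.tendsto_slope_zero_right
  set A := ∑ i, (F (update (fun _ => 1) i 0) - F (fun _ => 1)) with hA
  set C := (Fintype.card ι : ℝ) * (2 * (Fintype.card ι) * M) with hC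
  have lim : Filter.Tendsto (fun t : ℝ => A + C * t) (nhdsWithin 0 (Ioi 0)) (nhds A) := by
    have : Filter.Tendsto (fun t : ℝ => A + C * t) (nhds 0) (nhds (A + C * 0)) := by
      apply Continuous.tendsto; fun_prop
    rw [mul_zero, add_zero] at this
    exact this.mono_left nhdsWithin_le_nhds
  refine le_of_tendsto_of_tendsto ht lim ?_
  have hmem : Ioc (0 : ℝ) 1 ∈ nhdsWithin (0 : ℝ) (Ioi 0) := Ioc_mem_nhdsGT one_pos
  filter_upwards [hmem] with t ht
  have h := main_sep F M hconv h0 hM ht.1.le ht.2 Finset.univ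
  simp only [Finset.mem_univ, if_true, Finset.card_univ, ← hA, ← hC] at h
  simp only [zero_add, sub_zero, smul_eq_mul]
  rw [inv_mul_le_iff₀ ht.1]
  linarith
end

end Pool.Agent.H705R3
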