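import Pool.Agent.H705R3.Zono
import Pool.Agent.H705R3.Conv
import Pool.Agent.H705R3.Sep

/-! Coefficient inequality for `vol (K + zonotope)`. -/

namespace Pool.Agent.H705R3
open MeasureTheory Set Pointwise Function

variable {n : ℕ} {κ : Type*} [Fintype κ] [DecidableEq κ]

lemma seg_smul {E : Type*} [NormedAddCommGroup E] [NormedSpace ℝ E] (v : E) (τ : ℝ) {c : ℝ}
    (hc : 0 < c) : seg v τ = c • seg v (τ / c) := by
  ext x
  constructor
  · rintro ⟨r, ⟨h0, h1⟩, rfl⟩
    refine ⟨(r / c) • v, ⟨r / c, ⟨by positivity, by gcongr⟩, rfl⟩, ?_⟩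
    simp only [smul_smul]; congr 1; field_simp
  · rintro ⟨_, ⟨r, ⟨h0, h1⟩, rfl⟩, rfl⟩
    refine ⟨c * r, ⟨by positivity, ?_⟩, ?_⟩
    · rw [le_div_iff₀ hc] at h1; linarith
    · simp [smul_smul]

omit [Fintype κ] in
lemma Zs_smul {E : Type*} [NormedAddCommGroup E] [NormedSpace ℝ E] (s : Finset κ) (v : κ → E)
    (τ : κ → ℝ) {c : ℝ} (hc : 0 < c) : Zs s v τ = c • Zs s v (fun l => τ l / c) := by
  induction s using Finset.induction_on with
  | empty => rw [Zs_empty, Zs_empty]; simp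
  | insert a s h ih => rw [Zs_insert h, Zs_insert h, smul_add, ← ih, ← seg_smul _ _ hc]

lemma dil_const (c : ℝ) (K : Set (Fin (n + 1) → ℝ)) : dil (fun _ => c) K = c • K := by
  ext x
  constructor
  · rintro ⟨k, hk, rfl⟩
    exact ⟨k, hk, by ext; simp⟩
  · rintro ⟨k, hk, rfl⟩
    exact ⟨k, hk, by ext; simp⟩

/-- the coordinate projection -/
def pr (i : Fin (n + 1)) (K : Set (Fin (n + 1) → ℝ)) : Set (Fin (n + 1) → ℝ) :=
  dil (update (fun _ => 1) i 0) K

lemma hasDeriv_pow (a k : ℕ) :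
    HasDerivAt (fun s : ℝ => (1 - s) ^ a / (1 - s) ^ k) (-(a : ℝ) + k) 0 := by
  have h1 : HasDerivAt (fun s : ℝ => 1 - s) (-1) 0 := by
    simpa using (hasDerivAt_id (0 : ℝ)).const_sub 1
  have h2 := (h1.fun_pow a).fun_div (h1.fun_pow k) (by simp)
  refine h2.congr_deriv ?_
  simp

lemma key_ineq {K : Set (Fin (n + 1) → ℝ)} (hKc : IsCompact K) (hK : Convex ℝ K)
    (v : κ → (Fin (n + 1) → ℝ)) (c : Finset κ → ℝ) (ci : Fin (n + 1) → Finset κ → ℝ)
    (hc : ∀ τ : κ → ℝ, (∀ l, 0 ≤ τ l) →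
      volume.real (K + Zs Finset.univ v τ) = ∑ S ∈ Finset.univ.powerset, c S * ∏ l ∈ S, τ l)
    (hci : ∀ i, ∀ τ : κ → ℝ, (∀ l, 0 ≤ τ l) →
      volume.real (pr i K + Zs Finset.univ v τ) =
        ∑ S ∈ Finset.univ.powerset, ci i S * ∏ l ∈ S, τ l) :
    ∀ S : Finset κ, (S.card : ℝ) * c S ≤ ∑ i, ci i S := by
  have main : ∀ τ : κ → ℝ, (∀ l, 0 ≤ τ l) →
      0 ≤ ∑ S ∈ (Finset.univ : Finset κ).powerset,
        (∑ i, ci i S - (S.card : ℝ) * c S) * ∏ l ∈ S, τ l := by
    intro τ hτ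
    set C := Zs Finset.univ v τ with hC
    have hCc : IsCompact C := Zs_compact _ _ _
    have hCv : Convex ℝ C := Zs_convex _ _ _
    -- boundedness
    obtain ⟨M, hM⟩ : ∃ M : ℝ, ∀ x : Fin (n + 1) → ℝ, (∀ i, x i ∈ Icc (0 : ℝ) 2) →
        volume.real (dil x K + C) ≤ M := by
      have hb : IsCompact ((fun p : (Fin (n + 1) → ℝ) × (Fin (n + 1) → ℝ) => p.1 * p.2) ''
          ((Set.pi univ (fun _ => Icc (0 : ℝ) 2)) ×ˢ K) + C) :=
        (((isCompact_univ_pi (fun _ => isCompact_Icc)).prod hKc).image (by fun_prop)).add hCc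
      refine ⟨volume.real ((fun p : (Fin (n + 1) → ℝ) × (Fin (n + 1) → ℝ) => p.1 * p.2) ''
          ((Set.pi univ (fun _ => Icc (0 : ℝ) 2)) ×ˢ K) + C), fun x hx => ?_⟩
      apply measureReal_mono _ hb.measure_lt_top.ne
      apply Set.add_subset_add_right
      rintro _ ⟨k, hk, rfl⟩
      exact ⟨(x, k), ⟨fun i _ => hx i, hk⟩, rfl⟩
    have hD : HasDerivAt (fun s => volume.real (dil (fun _ : Fin (n + 1) => (1 - s)) K + C))
        (∑ S ∈ (Finset.univ : Finset κ).powerset,
          (c S * ∏ l ∈ S, τ l) * (-((n + 1 : ℕ) : ℝ) + S.card)) 0 := by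
      have h1 : HasDerivAt (fun s : ℝ => ∑ S ∈ (Finset.univ : Finset κ).powerset,
          (c S * ∏ l ∈ S, τ l) * ((1 - s) ^ (n + 1) / (1 - s) ^ S.card))
          (∑ S ∈ (Finset.univ : Finset κ).powerset,
          (c S * ∏ l ∈ S, τ l) * (-((n + 1 : ℕ) : ℝ) + S.card)) 0 := by
        apply HasDerivAt.fun_sum
        intro S _
        exact (hasDeriv_pow (n + 1) S.card).const_mul _
      apply h1.congr_of_eventuallyEq
      have : Iio (1 : ℝ) ∈ nhds (0 : ℝ) := Iio_mem_nhds one_pos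
      filter_upwards [this] with s hs
      have hs' : 0 < 1 - s := by simp only [mem_Iio] at hs; linarith
      rw [dil_const, hC, Zs_smul _ v τ hs', ← smul_add, Measure.real, Measure.addHaar_smul,
        ENNReal.toReal_mul, ENNReal.toReal_ofReal (by positivity)]
      have h3 := hc (fun l => τ l / (1 - s)) (fun l => div_nonneg (hτ l) hs'.le)
      rw [Measure.real] at h3
      rw [h3]
      simp only [Module.finrank_fintype_fun_eq_card, Fintype.card_fin]
      rw [abs_of_pos (by positivity), Finset.mul_sum]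
      apply Finset.sum_congr rfl
      intro S _
      rw [Finset.prod_div_distrib, Finset.prod_const]
      ring
    have h := deriv_le (fun x => volume.real (dil x K + C)) M
      (fun x i a b θ h0 h1 => F_convex i x hKc hCc hK hCv h0 h1)
      (fun x => measureReal_nonneg) hM hD
    have e1 : dil (fun _ : Fin (n + 1) => (1 : ℝ)) K = K := by rw [dil_const, one_smul]
    simp only [e1] at h
    rw [Finset.sum_sub_distrib] at h
    have e2 : ∀ i, volume.real (dil (update (fun _ : Fin (n + 1) => (1 : ℝ)) i 0) K + C) =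
        ∑ S ∈ (Finset.univ : Finset κ).powerset, ci i S * ∏ l ∈ S, τ l := fun i => hci i τ hτ
    rw [Finset.sum_congr rfl (fun i _ => e2 i), hc τ hτ, Finset.sum_const, Finset.card_univ,
      Fintype.card_fin, nsmul_eq_mul, Finset.sum_comm, Finset.mul_sum, ← Finset.sum_sub_distrib] at h
    rw [← sub_nonneg, ← Finset.sum_sub_distrib] at h
    refine h.trans (le_of_eq ?_)
    apply Finset.sum_congr rfl
    intro S _
    rw [← Finset.sum_mul]
    ring
  intro S
  have := coeff_nonneg Finset.univ (fun S => ∑ i, ci i S - (S.card : ℝ) * c S) main S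
    (by simp)
  linarith

end Pool.Agent.H705R3
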