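import Mathlib

/-! Volumes of `K + [0, τ] v` for a compact convex set `K`. -/

namespace Pool.Agent.H705R3
open MeasureTheory Set Pointwise

variable {E : Type*} [NormedAddCommGroup E] [NormedSpace ℝ E] [MeasurableSpace E] [BorelSpace E]
  [FiniteDimensional ℝ E]

/-- the segment `[0, τ] v` -/
def seg (v : E) (τ : ℝ) : Set E := (fun r : ℝ => r • v) '' Icc 0 τ

omit [MeasurableSpace E] [BorelSpace E] [FiniteDimensional ℝ E] in
lemma seg_compact (v : E) (τ : ℝ) : IsCompact (seg v τ) :=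
  isCompact_Icc.image (by fun_prop)

omit [MeasurableSpace E] [BorelSpace E] [FiniteDimensional ℝ E] in
lemma seg_convex (v : E) (τ : ℝ) : Convex ℝ (seg v τ) :=
  (convex_Icc 0 τ).is_linear_image ⟨fun a b => add_smul a b v, fun c a => by simp [mul_smul]⟩

omit [MeasurableSpace E] [BorelSpace E] [FiniteDimensional ℝ E] in
lemma zero_mem_seg (v : E) {τ : ℝ} (h : 0 ≤ τ) : (0 : E) ∈ seg v τ :=
  ⟨0, ⟨le_refl _, h⟩, by simp⟩

omit [MeasurableSpace E] [BorelSpace E] [FiniteDimensional ℝ E] in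
lemma subset_add_seg (K : Set E) (v : E) {τ : ℝ} (h : 0 ≤ τ) : K ⊆ K + seg v τ := by
  intro x hx
  exact ⟨x, hx, 0, zero_mem_seg v h, by simp⟩

omit [MeasurableSpace E] [BorelSpace E] [FiniteDimensional ℝ E] in
lemma add_seg_split (K : Set E) (v : E) {τ σ : ℝ} (hτ : 0 ≤ τ) (hσ : 0 ≤ σ) :
    K + seg v (τ + σ) = (K + seg v τ) ∪ ((τ • v) +ᵥ ((K + seg v σ) \ K)) := by
  ext x
  constructor
  · rintro ⟨y, hy, _, ⟨r, ⟨hr0, hr1⟩, rfl⟩, rfl⟩
    by_cases hrt : r ≤ τ
    · left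
      exact ⟨y, hy, _, ⟨r, ⟨hr0, hrt⟩, rfl⟩, rfl⟩
    · push Not at hrt
      by_cases hz : y + (r - τ) • v ∈ K
      · left
        refine ⟨_, hz, _, ⟨τ, ⟨hτ, le_refl _⟩, rfl⟩, ?_⟩
        simp only
        rw [add_assoc, ← add_smul]; congr 2; ring
      · right
        rw [Set.mem_vadd_set]
        refine ⟨y + (r - τ) • v, ⟨⟨y, hy, _, ⟨r - τ, ⟨by linarith, by linarith⟩, rfl⟩, rfl⟩, hz⟩, ?_⟩
        simp only [vadd_eq_add]
        rw [add_comm, add_assoc, ← add_smul]; congr 2; ring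
  · rintro (⟨y, hy, _, ⟨r, ⟨hr0, hr1⟩, rfl⟩, rfl⟩ | hx)
    · exact ⟨y, hy, _, ⟨r, ⟨hr0, by linarith⟩, rfl⟩, rfl⟩
    · rw [Set.mem_vadd_set] at hx
      obtain ⟨z, ⟨⟨y, hy, _, ⟨r, ⟨hr0, hr1⟩, rfl⟩, rfl⟩, _⟩, rfl⟩ := hx
      refine ⟨y, hy, _, ⟨τ + r, ⟨by linarith, by linarith⟩, rfl⟩, ?_⟩
      simp only [vadd_eq_add]
      rw [add_smul]; abel

omit [MeasurableSpace E] [BorelSpace E] [FiniteDimensional ℝ E] in
lemma add_seg_disj {K : Set E} (hK : Convex ℝ K) (v : E) {τ σ : ℝ} :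
    Disjoint (K + seg v τ) ((τ • v) +ᵥ ((K + seg v σ) \ K)) := by
  rw [Set.disjoint_left]
  rintro x ⟨y', hy', _, ⟨r', ⟨hr0', hr1'⟩, rfl⟩, rfl⟩ hx
  rw [Set.mem_vadd_set] at hx
  obtain ⟨z, ⟨⟨y, hy, _, ⟨r, ⟨hr0, hr1⟩, rfl⟩, rfl⟩, hz⟩, hzx⟩ := hx
  simp only [vadd_eq_add] at hzx
  apply hz
  -- y + r v = y' - (τ - r') v ; between y and y'
  have h1 : y + r • v = y' - (τ - r') • v := by
    have : y + r • v = y' + r' • v - τ • v := by rw [← hzx]; abel
    rw [this, sub_smul]; abel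
  simp only
  by_cases h0 : r + (τ - r') = 0
  · have hr : r = 0 := by linarith
    rw [hr]; simpa using hy
  · have hpos : 0 < r + (τ - r') := lt_of_le_of_ne (by linarith) (Ne.symm h0)
    have h2 : y' - y = (r + (τ - r')) • v := by
      have : y' = y + r • v + (τ - r') • v := by rw [h1]; abel
      rw [this, add_smul]; abel
    have h3 : y + r • v = (1 - r / (r + (τ - r'))) • y + (r / (r + (τ - r'))) • y' := by
      have : (r / (r + (τ - r'))) • (y' - y) = r • v := by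
        rw [h2, smul_smul]; congr 1; field_simp
      rw [← this, smul_sub, sub_smul, one_smul]; abel
    rw [h3]
    refine hK hy hy' ?_ ?_ (by ring)
    · rw [sub_nonneg, div_le_one hpos]; linarith
    · positivity

/-- additive + nonneg on `[0,∞)` implies linear -/
lemma additive_linear (φ : ℝ → ℝ) (h0 : ∀ x, 0 ≤ x → 0 ≤ φ x)
    (hadd : ∀ x y, 0 ≤ x → 0 ≤ y → φ (x + y) = φ x + φ y) :
    ∀ x, 0 ≤ x → φ x = φ 1 * x := by
  have hnat : ∀ (n : ℕ) (x : ℝ), 0 ≤ x → φ (n * x) = n * φ x := by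
    intro n x hx
    induction n with
    | zero =>
      have := hadd 0 0 le_rfl le_rfl
      simp at this ⊢
      linarith
    | succ k ih =>
      have : ((k + 1 : ℕ) : ℝ) * x = k * x + x := by push_cast; ring
      rw [this, hadd _ _ (by positivity) hx, ih]; push_cast; ring
  have hmono : ∀ x y, 0 ≤ x → x ≤ y → φ x ≤ φ y := by
    intro x y hx hxy
    have := hadd x (y - x) hx (by linarith)
    have h2 := h0 (y - x) (by linarith)
    rw [show x + (y - x) = y by ring] at this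
    linarith
  intro x hx
  have key : ∀ n : ℕ, 0 < n → |φ x - φ 1 * x| ≤ φ 1 / n := by
    intro n hn
    have hn' : (0 : ℝ) < n := by exact_mod_cast hn
    have hf1 : ((⌊n * x⌋₊ : ℕ) : ℝ) ≤ n * x := Nat.floor_le (by positivity)
    have hf2 : n * x < (⌊n * x⌋₊ : ℕ) + 1 := Nat.lt_floor_add_one _
    have h1 : φ (n * x) = n * φ x := hnat n x hx
    have h2 : ((⌊n * x⌋₊ : ℕ) : ℝ) * φ 1 ≤ φ (n * x) := by
      rw [← hnat _ 1 zero_le_one, mul_one]
      exact hmono _ _ (by positivity) hf1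
    have h3 : φ (n * x) ≤ (((⌊n * x⌋₊ + 1 : ℕ)) : ℝ) * φ 1 := by
      rw [← hnat _ 1 zero_le_one, mul_one]
      apply hmono _ _ (by positivity)
      push_cast; exact hf2.le
    push_cast at h3
    have hφ1 := h0 1 zero_le_one
    rw [h1] at h2 h3
    rw [abs_le]
    constructor
    · rw [neg_le_iff_add_nonneg]
      have : 0 ≤ n * (φ x - φ 1 * x + φ 1 / n) := by
        have e : n * (φ x - φ 1 * x + φ 1 / n) = n * φ x - φ 1 * (n * x) + φ 1 := by
          field_simp
        rw [e]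
        nlinarith
      exact (mul_nonneg_iff_of_pos_left hn').mp this
    · rw [← sub_nonneg]
      have : 0 ≤ n * (φ 1 / n - (φ x - φ 1 * x)) := by
        have e : n * (φ 1 / n - (φ x - φ 1 * x)) = φ 1 - n * φ x + φ 1 * (n * x) := by
          field_simp; ring
        rw [e]
        nlinarith
      exact (mul_nonneg_iff_of_pos_left hn').mp this
  by_contra hne
  have hpos : 0 < |φ x - φ 1 * x| := abs_pos.mpr (sub_ne_zero.mpr hne)
  have hφ1 := h0 1 zero_le_one
  obtain ⟨n, hn⟩ := exists_nat_gt (φ 1 / |φ x - φ 1 * x|)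
  have hn0 : 0 < n := by
    have : (0 : ℝ) ≤ φ 1 / |φ x - φ 1 * x| := by positivity
    have : (0 : ℝ) < n := lt_of_le_of_lt this hn
    exact_mod_cast this
  have hn' : (0 : ℝ) < n := by exact_mod_cast hn0
  have := key n hn0
  rw [div_lt_iff₀ hpos] at hn
  rw [le_div_iff₀ hn'] at this
  linarith

lemma vol_add_seg (μ : Measure E) [μ.IsAddHaarMeasure] {K : Set E} (hKc : IsCompact K)
    (hK : Convex ℝ K) (v : E) {τ : ℝ} (hτ : 0 ≤ τ) :
    μ.real (K + seg v τ) = μ.real K + τ * (μ.real (K + seg v 1) - μ.real K) := by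
  have hfin : ∀ τ, μ (K + seg v τ) ≠ ⊤ := fun τ => (hKc.add (seg_compact v τ)).measure_lt_top.ne
  have hmeas : ∀ τ, MeasurableSet (K + seg v τ) := fun τ => (hKc.add (seg_compact v τ)).measurableSet
  have hdiff : ∀ σ, 0 ≤ σ → μ.real ((K + seg v σ) \ K) = μ.real (K + seg v σ) - μ.real K := by
    intro σ hσ
    rw [measureReal_sdiff (subset_add_seg K v hσ) hKc.measurableSet (hfin σ)]
  have hadd : ∀ x y : ℝ, 0 ≤ x → 0 ≤ y →
      μ.real (K + seg v (x + y)) - μ.real K =
        (μ.real (K + seg v x) - μ.real K) + (μ.real (K + seg v y) - μ.real K) := by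
    intro x y hx hy
    have e1 : μ ((x • v) +ᵥ ((K + seg v y) \ K)) ≠ ⊤ := by
      rw [measure_vadd]
      exact ((measure_mono sdiff_subset).trans_lt (hfin y).lt_top).ne
    rw [add_seg_split K v hx hy, measureReal_union (add_seg_disj hK v)
      (((hmeas y).diff hKc.measurableSet).const_vadd _) (hfin x) e1,
      show μ.real ((x • v) +ᵥ ((K + seg v y) \ K)) = μ.real ((K + seg v y) \ K) by
        simp [Measure.real, measure_vadd], hdiff y hy]
    ring
  have := additive_linear (fun x => μ.real (K + seg v x) - μ.real K) (by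
    intro x hx
    have : μ.real K ≤ μ.real (K + seg v x) := measureReal_mono (subset_add_seg K v hx) (hfin x)
    simpa using this) (by simpa using hadd) τ hτ
  linarith

end Pool.Agent.H705R3
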