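import Pool.Agent.H705R3.Key
import Pool.Agent.H705R3.Ball2

/-! Approximating polynomials with the coefficient inequality. -/

namespace Pool.Agent.H705R3
open MeasureTheory Set Pointwise Metric Function Polynomial

variable {n : ℕ}

/-- projection along the `i`-th axis, as in the statement -/
def prE (i : Fin (n + 1)) (K : Set (EuclideanSpace ℝ (Fin (n + 1)))) :
    Set (EuclideanSpace ℝ (Fin (n + 1))) :=
  (fun x : EuclideanSpace ℝ (Fin (n + 1)) =>
    x - (inner ℝ x (EuclideanSpace.single i (1 : ℝ))) • EuclideanSpace.single i (1 : ℝ)) '' K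

/-- the identification with the product space -/
noncomputable def eq' : EuclideanSpace ℝ (Fin (n + 1)) ≃L[ℝ] (Fin (n + 1) → ℝ) :=
  EuclideanSpace.equiv (Fin (n + 1)) ℝ

lemma vol_eq' (A : Set (EuclideanSpace ℝ (Fin (n + 1)))) :
    volume.real (eq' '' A) = volume.real A := by
  have mp : MeasurePreserving (@WithLp.ofLp 2 (Fin (n + 1) → ℝ)) volume volume :=
    PiLp.volume_preserving_ofLp (Fin (n + 1))
  have hemb : MeasurableEmbedding (@WithLp.ofLp 2 (Fin (n + 1) → ℝ)) :=
    (eq' (n := n)).toHomeomorph.measurableEmbedding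
  have h := mp.measure_preimage_emb hemb (eq' '' A)
  unfold Measure.real
  rw [← h]
  congr 2
  exact (preimage_image_eq A (eq' (n := n)).injective)

lemma seg_map (v : EuclideanSpace ℝ (Fin (n + 1))) (τ : ℝ) :
    eq' '' (seg v τ) = seg (eq' v) τ := by
  unfold seg
  rw [image_image]
  simp

lemma Zs_map {κ : Type*} [DecidableEq κ] (s : Finset κ) (v : κ → EuclideanSpace ℝ (Fin (n + 1)))
    (τ : κ → ℝ) : eq' '' (Zs s v τ) = Zs s (fun l => eq' (v l)) τ := by
  induction s using Finset.induction_on with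
  | empty => rw [Zs_empty, Zs_empty]; simp [Set.singleton_zero]
  | insert a s h ih => rw [Zs_insert h, Zs_insert h, image_add, ih, seg_map]

lemma pr_map (i : Fin (n + 1)) (K : Set (EuclideanSpace ℝ (Fin (n + 1)))) :
    eq' '' (prE i K) = pr i (eq' '' K) := by
  unfold prE pr dil
  rw [image_image, image_image]
  congr 1
  ext x j
  by_cases h : j = i
  · subst h
    simp [eq', EuclideanSpace.inner_single_right]
  · simp [eq', EuclideanSpace.inner_single_right, h]


lemma prE_compact (i : Fin (n + 1)) {K : Set (EuclideanSpace ℝ (Fin (n + 1)))}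
    (hK : IsCompact K) : IsCompact (prE i K) :=
  hK.image (by fun_prop)

lemma prE_convex (i : Fin (n + 1)) {K : Set (EuclideanSpace ℝ (Fin (n + 1)))}
    (hK : Convex ℝ K) : Convex ℝ (prE i K) := by
  apply hK.is_linear_image
  constructor
  · intro x y
    rw [inner_add_left, add_smul]; abel
  · intro c x
    rw [real_inner_smul_left, smul_sub, smul_smul]

/-- sandwich of the zonotope volume between parallel volumes -/
lemma sandwich {K : Set (EuclideanSpace ℝ (Fin (n + 1)))} (hK : IsCompact K) {N : ℕ}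
    (v : Fin N → EuclideanSpace ℝ (Fin (n + 1))) (p : EuclideanSpace ℝ (Fin (n + 1))) {ε : ℝ}
    (hε0 : 0 < ε) (hε1 : ε < 1)
    (h1 : closedBall p (1 - ε) ⊆ Zs Finset.univ v (fun _ => 1))
    (h2 : Zs Finset.univ v (fun _ => 1) ⊆ closedBall p (1 + ε)) {t : ℝ} (ht : 0 ≤ t) :
    volume.real (cthickening (t * (1 - ε)) K) ≤ volume.real (K + Zs Finset.univ v (fun _ => t)) ∧
    volume.real (K + Zs Finset.univ v (fun _ => t)) ≤ volume.real (cthickening (t * (1 + ε)) K) := by
  have hb : ∀ s : ℝ, 0 ≤ s → ∀ q : EuclideanSpace ℝ (Fin (n + 1)),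
      volume.real (K + closedBall q s) = volume.real (cthickening s K) := by
    intro s hs q
    rw [hK.add_closedBall hs q]
    simp [Measure.real, measure_vadd]
  have hmul : ∀ r : ℝ, 0 ≤ r → closedBall (t • p) (t * r) = t • closedBall p r := by
    intro r hr
    rw [smul_closedBall _ _ hr, Real.norm_of_nonneg ht]
  have hZ : Zs Finset.univ v (fun _ => t) = t • Zs Finset.univ v (fun _ => 1) := by
    rcases ht.eq_or_lt with h0 | hpos
    · rw [← h0, zero_smul_set]
      · ext z
        rw [mem_Zs, Set.mem_zero]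
        constructor
        · rintro ⟨r, hr, rfl⟩
          apply Finset.sum_eq_zero
          intro l hl
          have := hr l hl
          rw [le_antisymm this.2 this.1, zero_smul]
        · rintro rfl
          exact ⟨fun _ => 0, fun _ _ => ⟨le_refl _, le_refl _⟩, by simp⟩
      · exact (nonempty_closedBall.mpr (by linarith)).mono h1
    · rw [Zs_smul Finset.univ v (fun _ => t) hpos]
      simp [div_self hpos.ne']
  constructor
  · rw [← hb (t * (1 - ε)) (mul_nonneg ht (by linarith)) (t • p), hmul _ (by linarith), hZ]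
    apply measureReal_mono
    · exact Set.add_subset_add_left (smul_set_mono h1)
    · rw [← hZ]; exact (hK.add (Zs_compact _ _ _)).measure_lt_top.ne
  · rw [← hb (t * (1 + ε)) (mul_nonneg ht (by linarith)) (t • p), hmul _ (by linarith), hZ]
    apply measureReal_mono
    · exact Set.add_subset_add_left (smul_set_mono h2)
    · rw [← hmul _ (by linarith)]; exact (hK.add (isCompact_closedBall _ _)).measure_lt_top.ne

lemma stage {K : Set (EuclideanSpace ℝ (Fin (n + 1)))} (hKc : IsCompact K) (hK : Convex ℝ K)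
    {ε : ℝ} (hε0 : 0 < ε) (hε1 : ε < 1) :
    ∃ (Q : ℝ[X]) (Qi : Fin (n + 1) → ℝ[X]),
      (∀ t : ℝ, 0 ≤ t → volume.real (cthickening (t * (1 - ε)) K) ≤ Q.eval t ∧
        Q.eval t ≤ volume.real (cthickening (t * (1 + ε)) K)) ∧
      (∀ i, ∀ t : ℝ, 0 ≤ t → volume.real (cthickening (t * (1 - ε)) (prE i K)) ≤ (Qi i).eval t ∧
        (Qi i).eval t ≤ volume.real (cthickening (t * (1 + ε)) (prE i K))) ∧
      ∀ k : ℕ, (k : ℝ) * Q.coeff k ≤ ∑ i, (Qi i).coeff k := by
  have h₀ : ‖EuclideanSpace.single (0 : Fin (n + 1)) (1 : ℝ)‖ = 1 := by simp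
  obtain ⟨N, v, p, h1, h2⟩ := zono_ball h₀ hε0
  obtain ⟨c, hc⟩ := multiaffine volume v Finset.univ K hKc hK
  have hex := fun i => multiaffine volume v Finset.univ (prE i K) (prE_compact i hKc)
    (prE_convex i hK)
  choose ci hci using hex
  have hkey := key_ineq (K := eq' '' K) (hKc.image eq'.continuous)
    (hK.is_linear_image eq'.toLinearEquiv.toLinearMap.isLinear) (fun l => eq' (v l)) c ci
    (by
      intro τ hτ
      rw [← Zs_map, ← image_add, vol_eq', hc τ hτ])
    (by
      intro i τ hτ
      rw [← Zs_map, ← pr_map, ← image_add, vol_eq', hci i τ hτ])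
  have hev : ∀ (d : Finset (Fin N) → ℝ) (t : ℝ),
      (∑ S ∈ (Finset.univ : Finset (Fin N)).powerset, C (d S) * X ^ S.card : ℝ[X]).eval t =
      ∑ S ∈ (Finset.univ : Finset (Fin N)).powerset, d S * ∏ l ∈ S, (fun _ => t) l := by
    intro d t
    rw [eval_finsetSum]
    apply Finset.sum_congr rfl
    intro S _
    simp
  refine ⟨∑ S ∈ (Finset.univ : Finset (Fin N)).powerset, C (c S) * X ^ S.card,
    fun i => ∑ S ∈ (Finset.univ : Finset (Fin N)).powerset, C (ci i S) * X ^ S.card, ?_, ?_, ?_⟩
  · intro t ht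
    rw [hev, ← hc (fun _ => t) (fun _ => ht)]
    exact sandwich hKc v p hε0 hε1 h1 h2 ht
  · intro i t ht
    simp only
    rw [hev, ← hci i (fun _ => t) (fun _ => ht)]
    exact sandwich (prE_compact i hKc) v p hε0 hε1 h1 h2 ht
  · intro k
    simp only [finsetSum_coeff, coeff_C_mul, coeff_X_pow, mul_ite, mul_one, mul_zero]
    rw [Finset.sum_comm, Finset.mul_sum]
    apply Finset.sum_le_sum
    intro S _
    split_ifs with h
    · rw [h]; exact hkey S
    · simp

end Pool.Agent.H705R3
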