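import Pool.Agent.H705R3.Seg

/-! `vol (K + ∑ τ_l [0, v_l])` is a multi-affine polynomial in `τ ≥ 0`. -/

namespace Pool.Agent.H705R3
open MeasureTheory Set Pointwise

variable {E : Type*} [NormedAddCommGroup E] [NormedSpace ℝ E] [MeasurableSpace E] [BorelSpace E]
  [FiniteDimensional ℝ E] {ι : Type*} [DecidableEq ι]

/-- the zonotope `∑ τ_l [0, v_l]` -/
def Zs (s : Finset ι) (v : ι → E) (τ : ι → ℝ) : Set E := ∑ l ∈ s, seg (v l) (τ l)

omit [MeasurableSpace E] [BorelSpace E] [FiniteDimensional ℝ E] [DecidableEq ι] in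
lemma Zs_empty (v : ι → E) (τ : ι → ℝ) : Zs (∅ : Finset ι) v τ = 0 := by simp [Zs]

omit [MeasurableSpace E] [BorelSpace E] [FiniteDimensional ℝ E] in
lemma Zs_insert {a : ι} {s : Finset ι} (h : a ∉ s) (v : ι → E) (τ : ι → ℝ) :
    Zs (insert a s) v τ = seg (v a) (τ a) + Zs s v τ := by
  simp [Zs, Finset.sum_insert h]

omit [MeasurableSpace E] [BorelSpace E] [FiniteDimensional ℝ E] in
lemma Zs_compact (s : Finset ι) (v : ι → E) (τ : ι → ℝ) : IsCompact (Zs s v τ) := by
  induction s using Finset.induction_on with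
  | empty => rw [Zs_empty]; exact isCompact_singleton
  | insert a s h ih => rw [Zs_insert h]; exact (seg_compact _ _).add ih

omit [MeasurableSpace E] [BorelSpace E] [FiniteDimensional ℝ E] in
lemma Zs_convex (s : Finset ι) (v : ι → E) (τ : ι → ℝ) : Convex ℝ (Zs s v τ) := by
  induction s using Finset.induction_on with
  | empty => rw [Zs_empty]; exact convex_singleton 0
  | insert a s h ih => rw [Zs_insert h]; exact (seg_convex _ _).add ih

lemma multiaffine (μ : Measure E) [μ.IsAddHaarMeasure] (v : ι → E) (s : Finset ι) :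
    ∀ K : Set E, IsCompact K → Convex ℝ K → ∃ c : Finset ι → ℝ, ∀ τ : ι → ℝ, (∀ l, 0 ≤ τ l) →
      μ.real (K + Zs s v τ) = ∑ S ∈ s.powerset, c S * ∏ l ∈ S, τ l := by
  induction s using Finset.induction_on with
  | empty =>
    intro K _ _
    refine ⟨fun _ => μ.real K, fun τ _ => ?_⟩
    rw [Zs_empty]; simp
  | insert a s h ih =>
    intro K hKc hK
    obtain ⟨c0, hc0⟩ := ih K hKc hK
    obtain ⟨c1, hc1⟩ := ih (K + seg (v a) 1) (hKc.add (seg_compact _ _)) (hK.add (seg_convex _ _))
    refine ⟨fun S => if a ∈ S then c1 (S.erase a) - c0 (S.erase a) else c0 S, fun τ hτ => ?_⟩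
    rw [Finset.sum_powerset_insert h, Zs_insert h]
    have e1 : K + (seg (v a) (τ a) + Zs s v τ) = (K + Zs s v τ) + seg (v a) (τ a) := by
      rw [add_comm (seg (v a) (τ a)), add_assoc]
    have e2 : (K + Zs s v τ) + seg (v a) 1 = (K + seg (v a) 1) + Zs s v τ := by
      rw [add_assoc, add_comm (Zs s v τ), ← add_assoc]
    rw [e1, vol_add_seg μ (hKc.add (Zs_compact s v τ)) (hK.add (Zs_convex s v τ)) (v a) (hτ a),
      e2, hc0 τ hτ, hc1 τ hτ, mul_sub, Finset.mul_sum, Finset.mul_sum, ← Finset.sum_sub_distrib]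
    congr 1
    · apply Finset.sum_congr rfl
      intro S hS
      have : a ∉ S := fun ha => h (Finset.mem_powerset.mp hS ha)
      simp [this]
    · apply Finset.sum_congr rfl
      intro S hS
      have : a ∉ S := fun ha => h (Finset.mem_powerset.mp hS ha)
      rw [Finset.prod_insert this]
      simp only [Finset.mem_insert_self, if_true, Finset.erase_insert this]
      ring

/-- leading coefficients of a nonnegative multi-affine polynomial are nonnegative -/
lemma coeff_nonneg (s : Finset ι) (d : Finset ι → ℝ)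
    (h : ∀ τ : ι → ℝ, (∀ l, 0 ≤ τ l) → 0 ≤ ∑ S ∈ s.powerset, d S * ∏ l ∈ S, τ l) :
    ∀ S ∈ s.powerset, 0 ≤ d S := by
  intro S₀ hS₀
  rw [Finset.mem_powerset] at hS₀
  have key : ∀ T : ℝ, 0 < T → 0 ≤ ∑ S ∈ S₀.powerset, d S * (T ^ S.card / T ^ S₀.card) := by
    intro T hT
    have h1 := h (fun l => if l ∈ S₀ then T else 0) (by
      intro l; split_ifs <;> linarith)
    have h2 : ∑ S ∈ s.powerset, d S * ∏ l ∈ S, (if l ∈ S₀ then T else 0) =
        ∑ S ∈ S₀.powerset, d S * T ^ S.card := by
      rw [← Finset.sum_subset (Finset.powerset_mono.mpr hS₀)]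
      · apply Finset.sum_congr rfl
        intro S hS
        rw [Finset.mem_powerset] at hS
        rw [Finset.prod_congr rfl (fun l hl => if_pos (hS hl))]
        simp
      · intro S _ hS2
        rw [Finset.mem_powerset, Finset.subset_iff] at hS2
        push Not at hS2
        obtain ⟨l, hl, hl2⟩ := hS2
        rw [Finset.prod_eq_zero hl (if_neg hl2), mul_zero]
    rw [h2] at h1
    have : ∑ S ∈ S₀.powerset, d S * (T ^ S.card / T ^ S₀.card) =
        (∑ S ∈ S₀.powerset, d S * T ^ S.card) / T ^ S₀.card := by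
      rw [Finset.sum_div]
      apply Finset.sum_congr rfl; intros; ring
    rw [this]; positivity
  have lim : Filter.Tendsto (fun T : ℝ => ∑ S ∈ S₀.powerset, d S * (T ^ S.card / T ^ S₀.card))
      Filter.atTop (nhds (∑ S ∈ S₀.powerset, d S * (if S = S₀ then 1 else 0))) := by
    apply tendsto_finsetSum
    intro S hS
    rw [Finset.mem_powerset] at hS
    apply Filter.Tendsto.const_mul
    by_cases hE : S = S₀
    · rw [if_pos hE, hE]
      apply tendsto_const_nhds.congr'
      filter_upwards [Filter.eventually_gt_atTop 0] with T hT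
      rw [div_self (pow_pos hT _).ne']
    · rw [if_neg hE]
      have hlt : S.card < S₀.card := Finset.card_lt_card (lt_of_le_of_ne hS hE)
      have := tendsto_pow_neg_atTop (𝕜 := ℝ) (n := S₀.card - S.card) (by omega)
      refine this.congr' ?_
      filter_upwards [Filter.eventually_gt_atTop 0] with T hT
      rw [zpow_neg, zpow_natCast, eq_div_iff (pow_pos hT _).ne',
        show S₀.card = (S₀.card - S.card) + S.card by omega, pow_add,
        show (S₀.card - S.card) + S.card - S.card = S₀.card - S.card by omega, ← mul_assoc,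
        inv_mul_cancel₀ (pow_pos hT _).ne', one_mul]
  have e : ∑ S ∈ S₀.powerset, d S * (if S = S₀ then (1 : ℝ) else 0) = d S₀ := by
    simp
  rw [e] at lim
  apply ge_of_tendsto lim
  filter_upwards [Filter.eventually_gt_atTop 0] with T hT using key T hT

end Pool.Agent.H705R3
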